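import Pool.Agent.Lib_MP_1e851b_pr.Assembly

/-!
# Normalised exit-time moments: the cube maximises among boxes

For every dimension `d ≥ 2`, every `p > 0` and every box `R_a`, the normalised moment
`λ₁(R_a)^p E_0[τ_{R_a}^p]` is at most the one of the cube `(-1,1)^d`, which is finite, with
equality exactly when `R_a` is a cube.

Idea of the proof: the survival function `g(t) = P(|B_s| < 1 for all s ≤ t)` of a real Brownian
motion started at the centre of the interval is log-concave (total positivity of the folded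
Gaussian kernel, applied to discretised paths, gives
`g(r+t+s) g(t) ≤ g(t+s) g(r+t)`), so that the comparison holds pointwise in `t` under the integral
in the layer cake formula; the equality case follows from `1 - g(t) ≤ 2 exp(-1/(2t))`.
-/

open MeasureTheory ProbabilityTheory Set Filter
open scoped ENNReal NNReal Topology

namespace Pool.Agent.Results.MP_1e851b_pr.BoxVersusCube

open Pool.Agent.LibBoxExit Pool.Agent.Results.MP_1e851b_pr

variable {d : ℕ} {Ω : Type*} {mΩ : MeasurableSpace Ω} {P : Measure Ω}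

/-- The normalised squared reciprocal side lengths `d b_k^{-2} / ∑ b_j^{-2}`. -/
noncomputable def wt (b : Fin d → ℝ) (k : Fin d) : ℝ≥0 :=
  1 / (((∑ j, 1 / (b j).toNNReal ^ 2) / d) * (b k).toNNReal ^ 2)

lemma sigma_pos (k₀ : Fin d) (b : Fin d → ℝ) (hb : ∀ k, 0 < b k) :
    (∑ j, 1 / (b j).toNNReal ^ 2) ≠ 0 := by
  have h1 : (0 : ℝ≥0) < 1 / (b k₀).toNNReal ^ 2 := by
    have : 0 < (b k₀).toNNReal := Real.toNNReal_pos.2 (hb k₀)
    positivity
  exact (lt_of_lt_of_le h1 (Finset.single_le_sum (f := fun j => 1 / (b j).toNNReal ^ 2)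
    (fun i _ => zero_le) (Finset.mem_univ k₀))).ne'

lemma sum_wt (k₀ : Fin d) (b : Fin d → ℝ) (hb : ∀ k, 0 < b k) : ∑ k, wt b k = d := by
  have hd : (d : ℝ≥0) ≠ 0 := by
    have : 0 < d := k₀.pos
    positivity
  have hs := sigma_pos k₀ b hb
  have h : ∀ k, wt b k = (d / ∑ j, 1 / (b j).toNNReal ^ 2) * (1 / (b k).toNNReal ^ 2) := by
    intro k
    have : (b k).toNNReal ≠ 0 := (Real.toNNReal_pos.2 (hb k)).ne'
    unfold wt
    field_simp
  simp_rw [h]
  rw [← Finset.mul_sum, div_mul_cancel₀ _ hs]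

/-- The normalised moment of a box as an explicit integral of the one-dimensional survival
function. -/
lemma normalizedMoment_eq (W : ℝ≥0 → Ω → EuclideanSpace ℝ (Fin d)) (hW : IsStandardBM W P)
    (k₀ : Fin d) (b : Fin d → ℝ) (hb : ∀ k, 0 < b k) {p : ℝ} (hp : 0 < p) :
    normalizedMoment W P p (box b) =
      ENNReal.ofReal (Real.pi ^ 2 / 4 * d) ^ p * (ENNReal.ofReal p * ∫⁻ t in Ioi (0 : ℝ),
        ENNReal.ofReal (∏ k, sf P (fun t ω => W t ω k₀) (t.toNNReal * wt b k)) *
          ENNReal.ofReal (t ^ (p - 1))) := by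
  have hd : (d : ℝ≥0) ≠ 0 := by
    have : 0 < d := k₀.pos
    positivity
  have hd' : (d : ℝ) ≠ 0 := by exact_mod_cast hd
  have hs := sigma_pos k₀ b hb
  set c : ℝ≥0 := (∑ j, 1 / (b j).toNNReal ^ 2) / d with hc
  have hc0 : c ≠ 0 := div_ne_zero hs hd
  have h1 := scaled_moment W hW k₀ b hb hp c hc0
  unfold wt
  rw [← hc, ← h1]
  unfold normalizedMoment
  rw [← mul_assoc, dirichletEigenvalue_box hb]
  congr 1
  rw [← ENNReal.mul_rpow_of_nonneg _ _ hp.le]
  congr 1
  rw [← ENNReal.ofReal_coe_nnreal, ← ENNReal.ofReal_mul (by positivity)]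
  congr 1
  rw [hc]
  push_cast
  have h2 : ∀ k, (((b k).toNNReal : ℝ≥0) : ℝ) = b k := fun k => Real.coe_toNNReal _ (hb k).le
  simp_rw [h2]
  rw [mul_div_assoc', mul_comm (Real.pi ^ 2 / 4 * (d : ℝ)), mul_div_assoc,
    mul_div_cancel_right₀ _ hd', Finset.sum_mul]
  refine Finset.sum_congr rfl fun k _ => ?_
  have := (hb k).ne'
  field_simp
  ring

/-- **The cube maximises the normalised exit-time moments among boxes.**
Let `W` be a standard Brownian motion in `ℝ^d`, `d ≥ 2`, started at the origin, and let `p > 0`.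
For every box `box a = {x : |x_k| < a_k}` with all `a_k > 0`,
`λ₁(box a)^p E[τ^p] ≤ λ₁(cube)^p E[τ_cube^p] < ∞`, where `cube = (-1,1)^d`, with equality in the
first inequality if and only if all `a_k` are equal. -/
theorem result {d : ℕ} (hd : 2 ≤ d) {p : ℝ} (hp : 0 < p)
    {Ω : Type*} [MeasurableSpace Ω] (P : Measure Ω)
    (W : ℝ≥0 → Ω → EuclideanSpace ℝ (Fin d)) (hW : IsStandardBM W P)
    (a : Fin d → ℝ) (ha : ∀ k, 0 < a k) :
    normalizedMoment W P p (box a) ≤ normalizedMoment W P p (box fun _ => 1) ∧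
    normalizedMoment W P p (box fun _ => 1) < ∞ ∧
    (normalizedMoment W P p (box a) = normalizedMoment W P p (box fun _ => 1) ↔
      ∀ i j, a i = a j) := by
  have hd0 : 0 < d := by omega
  set k₀ : Fin d := ⟨0, hd0⟩ with hk₀
  have hg := sf_survFn (P := P) (fun t ω => W t ω k₀) (hW.coord k₀)
  set g := sf P (fun t ω => W t ω k₀) with hgdef
  have hone : ∀ k : Fin d, (0 : ℝ) < (fun _ : Fin d => (1 : ℝ)) k := fun _ => one_pos
  have hdne : (d : ℝ≥0) ≠ 0 := by positivity
  have hwt1 : ∀ k : Fin d, wt (fun _ => 1) k = 1 := by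
    intro k
    unfold wt
    simp [hdne]
  have ea := normalizedMoment_eq W hW k₀ a ha hp
  have e1 := normalizedMoment_eq W hW k₀ (fun _ => 1) hone hp
  rw [← hgdef] at ea e1
  simp only [hwt1, mul_one, Finset.prod_const, Finset.card_univ, Fintype.card_fin] at e1
  set Ia := ∫⁻ t in Ioi (0 : ℝ),
        ENNReal.ofReal (∏ k, g (t.toNNReal * wt a k)) * ENNReal.ofReal (t ^ (p - 1)) with hIa
  set I1 := ∫⁻ t in Ioi (0 : ℝ),
        ENNReal.ofReal (g t.toNNReal ^ d) * ENNReal.ofReal (t ^ (p - 1)) with hI1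
  have hle : Ia ≤ I1 := hg.lintegral_le p (wt a) (sum_wt k₀ a ha)
  have hfin : I1 < ∞ := hg.lintegral_lt_top hd0 hp
  have hc1 : ENNReal.ofReal (Real.pi ^ 2 / 4 * d) ^ p ≠ 0 := by
    have : (0 : ℝ) < Real.pi ^ 2 / 4 * d := by positivity
    rw [Ne, ENNReal.rpow_eq_zero_iff]
    simp [this]
  have hc2 : ENNReal.ofReal (Real.pi ^ 2 / 4 * d) ^ p ≠ ∞ :=
    ENNReal.rpow_ne_top_of_nonneg hp.le ENNReal.ofReal_ne_top
  have hp1 : ENNReal.ofReal p ≠ 0 := by simpa using hp
  have hp2 : ENNReal.ofReal p ≠ ∞ := ENNReal.ofReal_ne_top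
  rw [ea, e1]
  refine ⟨by gcongr, ?_, ?_⟩
  · exact ENNReal.mul_lt_top hc2.lt_top (ENNReal.mul_lt_top hp2.lt_top hfin)
  · rw [ENNReal.mul_right_inj hc1 hc2, ENNReal.mul_right_inj hp1 hp2]
    constructor
    · intro heq
      have hw := hg.eq_one_of_lintegral_eq hd0 hp (wt a) (sum_wt k₀ a ha) heq
      have hs := sigma_pos k₀ a ha
      have key : ∀ k, (a k).toNNReal ^ 2 = d / ∑ j, 1 / (a j).toNNReal ^ 2 := by
        intro k
        have h1 := hw k
        have h2 : (a k).toNNReal ≠ 0 := (Real.toNNReal_pos.2 (ha k)).ne'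
        unfold wt at h1
        rw [one_div, inv_eq_one] at h1
        rw [eq_div_iff hs]
        rw [div_mul_eq_mul_div, div_eq_one_iff_eq hdne] at h1
        rw [mul_comm]; exact h1
      intro i j
      have h3 : (a i).toNNReal ^ 2 = (a j).toNNReal ^ 2 := by rw [key i, key j]
      have h4 : (a i) ^ 2 = (a j) ^ 2 := by
        have := congrArg (fun x : ℝ≥0 => (x : ℝ)) h3
        simpa [Real.coe_toNNReal _ (ha i).le, Real.coe_toNNReal _ (ha j).le] using this
      exact (pow_left_inj₀ (ha i).le (ha j).le two_ne_zero).1 h4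
    · intro hall
      have hw : ∀ k, wt a k = 1 := by
        intro k
        have h2 : (a k).toNNReal ≠ 0 := (Real.toNNReal_pos.2 (ha k)).ne'
        unfold wt
        have h3 : ∀ j, a j = a k := fun j => hall j k
        simp_rw [h3]
        simp only [Finset.sum_const, Finset.card_univ, Fintype.card_fin, nsmul_eq_mul]
        field_simp
      simp only [hIa, hI1, hw, mul_one, Finset.prod_const, Finset.card_univ, Fintype.card_fin]

end Pool.Agent.Results.MP_1e851b_pr.BoxVersusCube
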